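import Mathlib

set_option autoImplicit false
set_option linter.unusedSectionVars false

/-!
Every finite graph whose average degree is exactly `2k-2` (`k ≥ 2`) has property `M(k)`, i.e. it is
not uniquely `k`-list colourable.

Proof.  Let `P = ∏ (x_u - x_v)` over the edges; it is homogeneous of degree `(k-1)|V|`.  For every
family of `k`-element sets `S_v` of a field the weighted sum of the values of `P` over the grid
`∏ S_v` is the coefficient of `∏ x_v^(k-1)` in `P`, so it does not depend on the family.  Take a
prime `p` dividing `k` and an infinite field of characteristic `p`.  If `G` had a `k`-assignment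
with exactly one proper list colouring, then embedding the colours in the field would give a
one-term, nonzero, sum.  With all `S_v` equal to a `k`-element set `A` with `A + 1 = A`, the
translation by `1` shows that the sum is zero.
-/

namespace Pool.Agent.Results.MP_e14bb7_co.AverageDegree

open Finset

universe u

/-- `G` is uniquely `k`-list colourable: for some assignment of `k`-element lists `G` has exactly
one proper list colouring. -/
def UniquelyListColourable {V : Type u} (G : SimpleGraph V) (k : ℕ) : Prop :=
  ∃ (C : Type) (L : V → Finset C), (∀ v, (L v).card = k) ∧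
    ∃! c : V → C, (∀ v, c v ∈ L v) ∧ ∀ u v, G.Adj u v → c u ≠ c v

section grid

variable {V : Type u} [Fintype V] [DecidableEq V] {F : Type} [Field F] [DecidableEq F]

/-- The weighted sum of the values of `P` over the grid `∏ S_v`. -/
noncomputable def gridSum (S : V → Finset F) (P : MvPolynomial V F) : F :=
  ∑ a ∈ Fintype.piFinset S,
    MvPolynomial.eval a P * ∏ v, (∏ b ∈ (S v).erase (a v), (a v - b))⁻¹

omit [DecidableEq V] in
lemma gridSum_monomial [DecidableEq V] (S : V → Finset F) (m : V →₀ ℕ) (c : F) :
    gridSum S (MvPolynomial.monomial m c)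
      = c * ∏ v, ∑ x ∈ S v, x ^ (m v) * (∏ b ∈ (S v).erase x, (x - b))⁻¹ := by
  classical
  unfold gridSum
  rw [Finset.prod_univ_sum, Finset.mul_sum]
  refine Finset.sum_congr rfl fun a _ => ?_
  rw [MvPolynomial.eval_monomial, mul_assoc, Finset.prod_mul_distrib]
  congr 2
  rw [Finsupp.prod_fintype]
  intro i
  simp

lemma gridSum_add (S : V → Finset F) (P Q : MvPolynomial V F) :
    gridSum S (P + Q) = gridSum S P + gridSum S Q := by
  unfold gridSum
  rw [← Finset.sum_add_distrib]
  refine Finset.sum_congr rfl fun a _ => ?_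
  rw [map_add, add_mul]

lemma gridSum_sum {ι : Type*} (s : Finset ι) (S : V → Finset F) (P : ι → MvPolynomial V F) :
    gridSum S (∑ i ∈ s, P i) = ∑ i ∈ s, gridSum S (P i) := by
  classical
  induction s using Finset.induction_on with
  | empty => simp [gridSum]
  | insert i s hi ih => rw [Finset.sum_insert hi, Finset.sum_insert hi, gridSum_add, ih]

omit [Fintype V] [DecidableEq V] in
lemma univ_sum (S : Finset F) (n k : ℕ) (hk : 1 ≤ k) (hS : S.card = k) (hn : n ≤ k - 1) :
    ∑ x ∈ S, x ^ n * (∏ b ∈ S.erase x, (x - b))⁻¹ = if n = k - 1 then 1 else 0 := by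
  have hdeg : (Polynomial.X ^ n : Polynomial F).degree < (S.card : WithBot ℕ) := by
    rw [Polynomial.degree_X_pow, hS]
    exact_mod_cast (by omega : n < k)
  have h := Lagrange.coeff_eq_sum (s := S) (v := (id : F → F)) (Set.injOn_id _) hdeg
  simp only [Polynomial.eval_pow, Polynomial.eval_X, id] at h
  rw [Polynomial.coeff_X_pow, hS] at h
  simp only [← div_eq_mul_inv]
  rw [← h]
  by_cases h1 : n = k - 1
  · simp [h1]
  · rw [if_neg h1, if_neg (fun h2 => h1 h2.symm)]

/-- The grid sum of a homogeneous polynomial of degree `(k-1)|V|` over a grid with all sides of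
size `k` is its coefficient at `∏ x_v^(k-1)`. -/
lemma gridSum_eq_coeff (k : ℕ) (hk : 1 ≤ k) (S : V → Finset F) (hS : ∀ v, (S v).card = k)
    (P : MvPolynomial V F) (hP : P.IsHomogeneous (Fintype.card V * (k - 1))) :
    gridSum S P = MvPolynomial.coeff (Finsupp.equivFunOnFinite.symm fun _ => k - 1) P := by
  classical
  set m₀ : V →₀ ℕ := Finsupp.equivFunOnFinite.symm fun _ => k - 1 with hm₀
  have key : ∀ m ∈ P.support, gridSum S (MvPolynomial.monomial m (P.coeff m))
      = if m = m₀ then P.coeff m else 0 := by
    intro m hm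
    have hdeg : ∑ v, m v = Fintype.card V * (k - 1) := by
      have := hP (MvPolynomial.mem_support_iff.mp hm)
      rw [← this, Finsupp.weight_apply, Finsupp.sum_fintype]
      · simp
      · simp
    rw [gridSum_monomial]
    by_cases hmm : m = m₀
    · rw [if_pos hmm]
      have : ∀ v, ∑ x ∈ S v, x ^ (m v) * (∏ b ∈ (S v).erase x, (x - b))⁻¹ = 1 := by
        intro v
        have hv : m v = k - 1 := by rw [hmm, hm₀]; simp
        rw [univ_sum (S v) (m v) k hk (hS v) (by omega), if_pos hv]
      simp [this]
    · rw [if_neg hmm]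
      have hex : ∃ v, m v < k - 1 := by
        by_contra hcon
        push Not at hcon
        apply hmm
        have hall : ∀ v, m v = k - 1 := by
          by_contra hne
          push Not at hne
          obtain ⟨v, hv⟩ := hne
          have hlt : ∑ v : V, (k - 1) < ∑ v, m v :=
            Finset.sum_lt_sum (fun i _ => hcon i) ⟨v, Finset.mem_univ v,
              lt_of_le_of_ne (hcon v) (Ne.symm hv)⟩
          rw [hdeg] at hlt
          simp at hlt
        ext v
        rw [hall v, hm₀]
        simp
      obtain ⟨v, hv⟩ := hex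
      rw [Finset.prod_eq_zero (Finset.mem_univ v), mul_zero]
      rw [univ_sum (S v) (m v) k hk (hS v) (by omega), if_neg (by omega)]
  conv_lhs => rw [MvPolynomial.as_sum P]
  rw [gridSum_sum, Finset.sum_congr rfl key, Finset.sum_ite_eq']
  split_ifs with h
  · rfl
  · exact (MvPolynomial.notMem_support_iff.mp h).symm

end grid

section graph

variable {V : Type u} [Fintype V] [DecidableEq V] {F : Type} [Field F] [DecidableEq F]

/-- The graph polynomial `∏ (x_u - x_v)` over the edges. -/
noncomputable def graphPoly (F : Type) [Field F] (G : SimpleGraph V) [DecidableRel G.Adj] :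
    MvPolynomial V F :=
  ∏ e ∈ G.edgeFinset, (MvPolynomial.X (Quot.out e).1 - MvPolynomial.X (Quot.out e).2)

omit [DecidableEq F] in
lemma graphPoly_homog (G : SimpleGraph V) [DecidableRel G.Adj] :
    (graphPoly F G).IsHomogeneous G.edgeFinset.card := by
  have h := MvPolynomial.IsHomogeneous.prod G.edgeFinset
    (fun e => (MvPolynomial.X (Quot.out e).1 - MvPolynomial.X (Quot.out e).2 : MvPolynomial V F))
    (fun _ => 1) (fun e _ => (MvPolynomial.isHomogeneous_X F _).sub
      (MvPolynomial.isHomogeneous_X F _))
  simpa [graphPoly] using h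

omit [DecidableEq F] in
lemma eval_graphPoly (G : SimpleGraph V) [DecidableRel G.Adj] (a : V → F) :
    MvPolynomial.eval a (graphPoly F G)
      = ∏ e ∈ G.edgeFinset, (a (Quot.out e).1 - a (Quot.out e).2) := by
  simp [graphPoly]

omit [DecidableEq F] in
lemma eval_graphPoly_ne_zero (G : SimpleGraph V) [DecidableRel G.Adj] (a : V → F) :
    MvPolynomial.eval a (graphPoly F G) ≠ 0 ↔ ∀ u v, G.Adj u v → a u ≠ a v := by
  rw [eval_graphPoly, Finset.prod_ne_zero_iff]
  constructor
  · intro h u v huv hauv
    have he : s(u, v) ∈ G.edgeFinset := by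
      rw [SimpleGraph.mem_edgeFinset]; exact huv
    apply h _ he
    have h1 : s((Quot.out s(u, v)).1, (Quot.out s(u, v)).2) = s(u, v) := Quot.out_eq _
    rw [Sym2.eq_iff] at h1
    rcases h1 with ⟨h1, h2⟩ | ⟨h1, h2⟩
    · rw [h1, h2, hauv, sub_self]
    · rw [h1, h2, hauv, sub_self]
  · intro h e he
    rw [sub_ne_zero]
    apply h
    rw [SimpleGraph.mem_edgeFinset] at he
    have h1 : s((Quot.out e).1, (Quot.out e).2) = e := Quot.out_eq _
    rw [← SimpleGraph.mem_edgeSet, h1]
    exact he

/-- On the grid `A^V`, `A + 1 = A`, the grid sum of the graph polynomial vanishes. -/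
lemma gridSum_translation [Nonempty V] (G : SimpleGraph V) [DecidableRel G.Adj] (A : Finset F)
    (hA : ∀ x, x ∈ A ↔ x + 1 ∈ A) : gridSum (fun _ => A) (graphPoly F G) = 0 := by
  classical
  obtain ⟨v₀⟩ := ‹Nonempty V›
  set T : (V → F) → F := fun a =>
    MvPolynomial.eval a (graphPoly F G) * ∏ v, (∏ b ∈ A.erase (a v), (a v - b))⁻¹ with hT
  have hw : ∀ x : F, ∏ b ∈ A.erase (x + 1), (x + 1 - b) = ∏ b ∈ A.erase x, (x - b) := by
    intro x
    symm
    refine Finset.prod_equiv (Equiv.addRight (1 : F)) ?_ ?_
    · intro b
      simp only [Finset.mem_erase, Equiv.coe_addRight, ne_eq, add_left_inj]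
      rw [← hA b]
    · intro b _
      simp only [Equiv.coe_addRight]
      ring
  have hTt : ∀ a : V → F, T (fun v => a v + 1) = T a := by
    intro a
    simp only [hT, hw]
    congr 1
    rw [eval_graphPoly, eval_graphPoly]
    refine Finset.prod_congr rfl fun e _ => ?_
    ring
  let σ : (V → F) ≃ (V → F) := Equiv.piCongrRight fun _ => Equiv.addRight (1 : F)
  have hσ : ∀ a v, σ a v = a v + 1 := fun a v => rfl
  have h1 : ∑ a ∈ Fintype.piFinset (fun _ : V => A), T a * (a v₀ + 1)
      = ∑ a ∈ Fintype.piFinset (fun _ : V => A), T a * a v₀ := by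
    refine Finset.sum_equiv σ ?_ ?_
    · intro a
      simp only [Fintype.mem_piFinset, hσ]
      exact forall_congr' fun v => hA (a v)
    · intro a _
      have : T (σ a) = T a := hTt a
      rw [this, hσ]
  simp only [mul_add, mul_one, Finset.sum_add_distrib] at h1
  have h2 : ∑ a ∈ Fintype.piFinset (fun _ : V => A), T a = 0 := by
    simpa using h1
  exact h2

/-- In an infinite field of characteristic `p` there are finite sets `A` with `A + 1 = A` of every
size divisible by `p`. -/
lemma exists_invariant (p : ℕ) [hp : Fact p.Prime] [Algebra (ZMod p) F] [Infinite F] (m : ℕ) :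
    ∃ A : Finset F, A.card = p * m ∧ ∀ x, x ∈ A ↔ x + 1 ∈ A := by
  classical
  induction m with
  | zero => exact ⟨∅, by simp, by simp⟩
  | succ m ih =>
    obtain ⟨A, hcard, hA⟩ := ih
    obtain ⟨x, hx⟩ := Infinite.exists_notMem_finset A
    have : NeZero p := ⟨hp.out.ne_zero⟩
    let B : Finset F := Finset.univ.image fun i : ZMod p => x + algebraMap (ZMod p) F i
    have hinj : Function.Injective fun i : ZMod p => x + algebraMap (ZMod p) F i := by
      intro i j hij
      exact (algebraMap (ZMod p) F).injective (add_left_cancel hij)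
    have hB : B.card = p := by
      rw [Finset.card_image_of_injective _ hinj, Finset.card_univ, ZMod.card]
    have hBmem : ∀ y, y ∈ B ↔ ∃ i : ZMod p, x + algebraMap (ZMod p) F i = y := by
      intro y; simp [B]
    have hAn : ∀ n : ℕ, ∀ y, y ∈ A ↔ y + (n : F) ∈ A := by
      intro n
      induction n with
      | zero => intro y; simp
      | succ n ihn =>
        intro y
        rw [ihn y, hA]
        push_cast
        rw [add_assoc]
    have hdisj : Disjoint A B := by
      rw [Finset.disjoint_left]
      intro y hyA hyB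
      obtain ⟨i, rfl⟩ := (hBmem y).mp hyB
      apply hx
      have : ((i.val : ℕ) : F) = algebraMap (ZMod p) F i := by
        conv_rhs => rw [← ZMod.natCast_zmod_val i]
        rw [map_natCast]
      rw [hAn i.val x, this]
      exact hyA
    refine ⟨A ∪ B, ?_, ?_⟩
    · rw [Finset.card_union_of_disjoint hdisj, hcard, hB]; ring
    · intro y
      rw [Finset.mem_union, Finset.mem_union, ← hA y, hBmem, hBmem]
      constructor
      · rintro (h | ⟨i, hi⟩)
        · exact Or.inl h
        · refine Or.inr ⟨i + 1, ?_⟩
          rw [map_add, map_one, ← hi]; ring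
      · rintro (h | ⟨i, hi⟩)
        · exact Or.inl h
        · refine Or.inr ⟨i - 1, ?_⟩
          rw [map_sub, map_one]
          linear_combination hi

end graph

/-- For every `k ≥ 2`, a finite nonempty graph with average degree exactly `2k-2` is not uniquely
`k`-list colourable. -/
theorem result (k : ℕ) (hk : 2 ≤ k) (V : Type u) [Fintype V] [Nonempty V]
    (G : SimpleGraph V) [DecidableRel G.Adj]
    (havg : 2 * (G.edgeFinset.card : ℚ) / (Fintype.card V : ℚ) = 2 * (k : ℚ) - 2) :
    ¬ UniquelyListColourable G k := by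
  classical
  rintro ⟨C, L, hL, c, ⟨hcL, hcp⟩, huniq⟩
  have hcardpos : 0 < Fintype.card V := Fintype.card_pos
  have hedge : G.edgeFinset.card = Fintype.card V * (k - 1) := by
    have h0 : (Fintype.card V : ℚ) ≠ 0 := by exact_mod_cast hcardpos.ne'
    rw [div_eq_iff h0] at havg
    have h1 : ((G.edgeFinset.card : ℕ) : ℚ) = ((Fintype.card V * (k - 1) : ℕ) : ℚ) := by
      push_cast [Nat.cast_sub (by omega : 1 ≤ k)]
      linarith
    exact_mod_cast h1
  obtain ⟨p, hp, hpk⟩ := Nat.exists_prime_and_dvd (by omega : k ≠ 1)
  have : Fact p.Prime := ⟨hp⟩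
  let F := AlgebraicClosure (ZMod p)
  have : Infinite F := IsAlgClosed.instInfinite
  obtain ⟨m, hm⟩ := hpk
  obtain ⟨A, hAcard, hA⟩ := exists_invariant (F := F) p m
  have hAk : A.card = k := by rw [hAcard, hm]
  -- embed the colours
  obtain ⟨φ, hφ⟩ : ∃ φ : C → F, Set.InjOn φ (↑(Finset.univ.biUnion L) : Set C) := by
    let U := Finset.univ.biUnion L
    obtain ⟨g⟩ : Nonempty (↥U ↪ F) := ⟨(Finite.equivFin ↥U).toEmbedding.trans
      (Fin.valEmbedding.trans (Infinite.natEmbedding F))⟩
    refine ⟨fun x => if h : x ∈ U then g ⟨x, h⟩ else 0, ?_⟩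
    intro x hx y hy hxy
    have hx' : x ∈ U := hx
    have hy' : y ∈ U := hy
    simp only [hx', hy', dif_pos] at hxy
    have := g.injective hxy
    simpa using this
  have hmemU : ∀ v, ∀ x ∈ L v, x ∈ (↑(Finset.univ.biUnion L) : Set C) := by
    intro v x hx
    simp only [Finset.coe_biUnion, Set.mem_iUnion]
    exact ⟨v, by simp, hx⟩
  let S : V → Finset F := fun v => (L v).image φ
  have hS : ∀ v, (S v).card = k := by
    intro v
    rw [Finset.card_image_of_injOn, hL v]
    intro x hx y hy hxy
    exact hφ (hmemU v x hx) (hmemU v y hy) hxy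
  have hhom : (graphPoly F G).IsHomogeneous (Fintype.card V * (k - 1)) := by
    rw [← hedge]; exact graphPoly_homog G
  have h1 := gridSum_eq_coeff k (by omega) S hS (graphPoly F G) hhom
  have h2 := gridSum_eq_coeff k (by omega) (fun _ => A) (fun _ => hAk) (graphPoly F G) hhom
  rw [gridSum_translation G A hA] at h2
  rw [← h2] at h1
  -- the first sum has exactly one nonzero term
  have h3 : gridSum S (graphPoly F G)
      = MvPolynomial.eval (fun v => φ (c v)) (graphPoly F G) *
        ∏ v, (∏ b ∈ (S v).erase (φ (c v)), (φ (c v) - b))⁻¹ := by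
    unfold gridSum
    refine Finset.sum_eq_single (fun v => φ (c v)) ?_ ?_
    · intro a ha hne
      by_contra hcon
      have hev : MvPolynomial.eval a (graphPoly F G) ≠ 0 := left_ne_zero_of_mul hcon
      rw [eval_graphPoly_ne_zero] at hev
      rw [Fintype.mem_piFinset] at ha
      have hex : ∀ v, ∃ x ∈ L v, φ x = a v := fun v => by
        have := ha v
        simpa [S] using this
      choose d hd hda using hex
      have hdc : d = c := by
        apply huniq
        refine ⟨hd, fun u v huv hduv => hev u v huv ?_⟩
        rw [← hda u, ← hda v, hduv]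
      apply hne
      funext v
      rw [← hda v, hdc]
    · intro hcon
      exfalso
      apply hcon
      rw [Fintype.mem_piFinset]
      intro v
      exact Finset.mem_image_of_mem φ (hcL v)
  rw [h3] at h1
  have h4 : MvPolynomial.eval (fun v => φ (c v)) (graphPoly F G) ≠ 0 := by
    rw [eval_graphPoly_ne_zero]
    intro u v huv hφuv
    exact hcp u v huv (hφ (hmemU u _ (hcL u)) (hmemU v _ (hcL v)) hφuv)
  have h5 : ∏ v, (∏ b ∈ (S v).erase (φ (c v)), (φ (c v) - b))⁻¹ ≠ 0 := by
    rw [Finset.prod_ne_zero_iff]
    intro v _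
    apply inv_ne_zero
    rw [Finset.prod_ne_zero_iff]
    intro b hb
    rw [sub_ne_zero]
    exact (Finset.ne_of_mem_erase hb).symm
  exact mul_ne_zero h4 h5 h1

end Pool.Agent.Results.MP_e14bb7_co.AverageDegree
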